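import Pool.Agent.Helper5.TR.Conv

/-!
# The ray `t ≥ 2`

`B(t) ≤ B(t') + |t - t'|` (Goluzin's inequality), and its use with `t' = 2 exp (i arg t)`.
-/

set_option autoImplicit false

namespace Pool.Agent.Helper5.TR

open Complex MeasureTheory Metric Set Filter Topology
open scoped Real ComplexConjugate

/-- moving the exponent by Goluzin's inequality -/
theorem UpAt.move {t' : ℂ} {b : ℝ} (H : UpAt t' b) (t : ℂ) : UpAt t (b + ‖t - t'‖) := by
  obtain ⟨C, hC, H⟩ := H.pos
  refine ⟨C, ?_⟩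
  intro ψ h hs R hR
  set X : ℝ := R ^ 2 / (R ^ 2 - 1) with hX
  have hX1 : 1 < X := one_lt_quot hR
  have hX0 : 0 < X := by linarith
  have hcont := hs.cont hR
  have hpt : ∀ s : ℝ, ‖Complex.exp (t * h (R * Complex.exp (s * I)))‖ ≤
      X ^ ‖t - t'‖ * ‖Complex.exp (t' * h (R * Complex.exp (s * I)))‖ := by
    intro s
    have e1 : t * h (R * Complex.exp (s * I)) =
        (t - t') * h (R * Complex.exp (s * I)) + t' * h (R * Complex.exp (s * I)) := by
      ring
    rw [e1, Complex.exp_add, norm_mul]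
    apply mul_le_mul_of_nonneg_right _ (norm_nonneg _)
    rw [Complex.norm_exp, Real.rpow_def_of_pos hX0, mul_comm (Real.log X)]
    apply Real.exp_le_exp.2
    refine (Complex.re_le_norm _).trans ?_
    rw [norm_mul]
    exact mul_le_mul_of_nonneg_left (hs.le hR s) (norm_nonneg _)
  have hI : (∫ s in (0:ℝ)..(2 * π), ‖Complex.exp (t * h (R * Complex.exp (s * I)))‖) ≤
      ∫ s in (0:ℝ)..(2 * π), X ^ ‖t - t'‖ * ‖Complex.exp (t' * h (R * Complex.exp (s * I)))‖ := by
    apply intervalIntegral.integral_mono_on (by positivity)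
    · exact (((Complex.continuous_exp.comp (continuous_const.mul hcont)).norm).intervalIntegrable
        _ _)
    · exact ((continuous_const.mul
        (Complex.continuous_exp.comp (continuous_const.mul hcont)).norm).intervalIntegrable _ _)
    · intro s _
      exact hpt s
  rw [intervalIntegral.integral_const_mul] at hI
  have hπ : (0:ℝ) < (2 * π)⁻¹ := by positivity
  have g := H ψ h hs R hR
  calc (2 * π)⁻¹ * (∫ s in (0:ℝ)..(2 * π), ‖Complex.exp (t * h (R * Complex.exp (s * I)))‖)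
      ≤ (2 * π)⁻¹ * (X ^ ‖t - t'‖ *
        ∫ s in (0:ℝ)..(2 * π), ‖Complex.exp (t' * h (R * Complex.exp (s * I)))‖) :=
        mul_le_mul_of_nonneg_left hI hπ.le
    _ = X ^ ‖t - t'‖ * ((2 * π)⁻¹ *
        ∫ s in (0:ℝ)..(2 * π), ‖Complex.exp (t' * h (R * Complex.exp (s * I)))‖) := by ring
    _ ≤ X ^ ‖t - t'‖ * (C * X ^ b) :=
        mul_le_mul_of_nonneg_left g (Real.rpow_nonneg hX0.le _)
    _ = C * X ^ (b + ‖t - t'‖) := by
        rw [Real.rpow_add hX0]
        ring

/-- the whole ray `t ≥ 2`: `|t| - 1` up to `o ((arg t)²)`, uniformly in `|t|` -/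
theorem ray
    (G4 : ∀ ε : ℝ, 0 < ε → ∃ d : ℝ, 0 < d ∧ ∀ τ : ℂ, τ ≠ 0 → ‖τ‖ < d →
      UpAt (2 - τ) (1 - τ.re + (1 / 4 + ε) * ‖τ‖ ^ 2)) :
    ∀ ε : ℝ, 0 < ε → ∃ d : ℝ, 0 < d ∧ ∀ t : ℂ, 2 ≤ ‖t‖ → |t.arg| < d →
      UpAt t (‖t‖ - 1 + ε * t.arg ^ 2) := by
  intro ε hε
  obtain ⟨d, hd, G4⟩ := G4 (ε / 4) (by positivity)
  refine ⟨d / 2, by positivity, fun t ht hφ => ?_⟩
  set φ : ℝ := t.arg with hφ'
  set e : ℂ := Complex.exp (φ * I) with he
  have htp : (‖t‖ : ℂ) * e = t := Complex.norm_mul_exp_arg_mul_I t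
  have hen : ‖e‖ = 1 := Complex.norm_exp_ofReal_mul_I φ
  have here : e.re = Real.cos φ := Complex.exp_ofReal_mul_I_re φ
  have heim : e.im = Real.sin φ := Complex.exp_ofReal_mul_I_im φ
  have hmove : ‖t - 2 * e‖ = ‖t‖ - 2 := by
    have e1 : t - 2 * e = ((‖t‖ - 2 : ℝ) : ℂ) * e := by
      push_cast
      rw [sub_mul, htp]
    rw [e1, norm_mul, hen, mul_one, Complex.norm_real, Real.norm_of_nonneg (by linarith)]
  set τ : ℂ := 2 * (1 - e) with hτ
  have e2 : 2 - τ = 2 * e := by rw [hτ]; ring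
  have hre : τ.re = 2 * (1 - Real.cos φ) := by
    rw [hτ]
    simp [here]
  have hsq : ‖τ‖ ^ 2 = 8 * (1 - Real.cos φ) := by
    rw [← Complex.normSq_eq_norm_sq, Complex.normSq_apply, hτ]
    simp only [Complex.mul_re, Complex.mul_im, Complex.sub_re, Complex.sub_im, Complex.one_re,
      Complex.one_im, here, heim, Complex.re_ofNat, Complex.im_ofNat]
    have := Real.sin_sq_add_cos_sq φ
    nlinarith
  have hcos : 1 - Real.cos φ ≤ φ ^ 2 / 2 := by
    have := Real.one_sub_sq_div_two_le_cos (x := φ)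
    linarith
  have hb : UpAt (2 * e) (1 + ε * φ ^ 2) := by
    by_cases h0 : τ = 0
    · have e3 : 2 * e = 2 := by rw [← e2, h0, sub_zero]
      rw [e3]
      exact up_two.mono (by nlinarith [sq_nonneg φ])
    · have hn : ‖τ‖ < d := by
        have h1 : ‖τ‖ ^ 2 ≤ (2 * |φ|) ^ 2 := by
          rw [hsq, mul_pow, sq_abs]
          linarith
        have h2 : ‖τ‖ ≤ 2 * |φ| := by
          have := abs_le_of_sq_le_sq' h1 (by positivity)
          exact this.2
        linarith
      have h3 := G4 τ h0 hn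
      rw [e2] at h3
      refine h3.mono ?_
      rw [hre, hsq]
      nlinarith
  have h4 := hb.move t
  rw [hmove] at h4
  refine h4.mono ?_
  linarith

end Pool.Agent.Helper5.TR
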